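import Pool.Agent.Helper38.TH.Goals4
import Pool.Agent.Helper48.M3.QSPL

/-!
# Project TH (MP_fc6b1e_nt): packet TH-G4_SPL

The parts of the expansion (large and small moduli).
-/

set_option autoImplicit false

namespace Pool.Agent.Helper6.TH

open Finset Pool.Agent.Helper17.PP Pool.Agent.Helper17.PP0 Pool.Agent.Helper17.PP2
open Pool.Agent.Helper11.M3 Pool.Agent.Helper38.TH Pool.Agent.Helper48.M3

open Classical in
/-- the three cases of the first part. -/
theorem three_cases (M A L : Prop) (h1 : M → ¬ L) (h2 : A ↔ (¬ M ∧ ¬ L)) (v : ℂ) :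
    v = (if M then v else 0) + (if A then v else 0) + (if L then v else 0) := by
  by_cases hM : M
  · have hL : ¬ L := h1 hM
    have hA : ¬ A := fun h => (h2.1 h).1 hM
    rw [if_pos hM, if_neg hA, if_neg hL]; ring
  · by_cases hL : L
    · have hA : ¬ A := fun h => (h2.1 h).2 hL
      rw [if_neg hM, if_neg hA, if_pos hL]; ring
    · have hA : A := h2.2 ⟨hM, hL⟩
      rw [if_neg hM, if_pos hA, if_neg hL]; ring

open Classical in
/-- the cases of the second part. -/
theorem second_cases (I J a d : ℕ) (L : Prop) (ha : a < J) (hd : d < J)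
    (hL : L → I ≤ a ∨ I ≤ d) (Bi Ci : ℕ → Prop) (hB : ∀ i, Bi i ↔ (L ∧ a = i))
    (hC : ∀ i, Ci i ↔ (L ∧ a < I ∧ d = i)) (v : ℂ) :
    (if L then v else 0) = (∑ i ∈ Ico I J, if Bi i then v else 0) +
      ∑ i ∈ Ico I J, if Ci i then v else 0 := by
  have eB : (∑ i ∈ Ico I J, if Bi i then v else 0) =
      ∑ i ∈ Ico I J, if (L ∧ a = i) then v else 0 := by
    refine Finset.sum_congr rfl fun i _ => ?_
    by_cases hi : (L ∧ a = i)
    · rw [if_pos hi, if_pos ((hB i).2 hi)]
    · rw [if_neg hi, if_neg (fun h => hi ((hB i).1 h))]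
  have eC : (∑ i ∈ Ico I J, if Ci i then v else 0) =
      ∑ i ∈ Ico I J, if (L ∧ a < I ∧ d = i) then v else 0 := by
    refine Finset.sum_congr rfl fun i _ => ?_
    by_cases hi : (L ∧ a < I ∧ d = i)
    · rw [if_pos hi, if_pos ((hC i).2 hi)]
    · rw [if_neg hi, if_neg (fun h => hi ((hC i).1 h))]
  rw [eB, eC]
  by_cases h : L
  · rw [if_pos h]
    by_cases h1 : I ≤ a
    · have e1 : (∑ i ∈ Ico I J, if (L ∧ a = i) then v else 0) =
          ∑ i ∈ Ico I J, if a = i then v else 0 := by
        refine Finset.sum_congr rfl fun i _ => ?_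
        by_cases hi : a = i
        · rw [if_pos ⟨h, hi⟩, if_pos hi]
        · rw [if_neg (fun x => hi x.2), if_neg hi]
      have e2 : (∑ i ∈ Ico I J, if (L ∧ a < I ∧ d = i) then v else 0) = 0 := by
        refine Finset.sum_eq_zero fun i _ => ?_
        rw [if_neg (fun x => by have := x.2.1; omega)]
      rw [e1, e2, Finset.sum_ite_eq, if_pos (mem_Ico.2 ⟨h1, ha⟩), add_zero]
    · have h1' : a < I := not_le.1 h1
      have h2 : I ≤ d := (hL h).resolve_left h1
      have e1 : (∑ i ∈ Ico I J, if (L ∧ a = i) then v else 0) = 0 := by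
        refine Finset.sum_eq_zero fun i hi => ?_
        rw [mem_Ico] at hi
        rw [if_neg (fun x => by have := x.2; omega)]
      have e2 : (∑ i ∈ Ico I J, if (L ∧ a < I ∧ d = i) then v else 0) =
          ∑ i ∈ Ico I J, if d = i then v else 0 := by
        refine Finset.sum_congr rfl fun i _ => ?_
        by_cases hi : d = i
        · rw [if_pos ⟨h, h1', hi⟩, if_pos hi]
        · rw [if_neg (fun x => hi x.2.2), if_neg hi]
      rw [e1, e2, Finset.sum_ite_eq, if_pos (mem_Ico.2 ⟨h2, hd⟩), zero_add]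
  · rw [if_neg h]
    rw [Finset.sum_eq_zero (fun i _ => if_neg (fun x => h x.1)),
      Finset.sum_eq_zero (fun i _ => if_neg (fun x => h x.1)), add_zero]

/-- **G4_SPL.** -/
theorem g4_spl : Pool.Agent.Helper38.TH.G4_SPL := by
  classical
  intro p hp B B₀ k U Λ C _ _ _ _ _ _ _ _ _ _ S ψ e I J P b q P₁ t hI hIJ hb
  constructor
  · unfold ful₄
    rw [← mul_add, ← mul_add]
    congr 1
    rw [← Finset.sum_add_distrib, ← Finset.sum_add_distrib]
    refine Finset.sum_congr rfl fun x _ ↦ ?_
    rw [← Finset.sum_add_distrib, ← Finset.sum_add_distrib]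
    refine Finset.sum_congr rfl fun χ _ ↦ ?_
    rw [← Finset.sum_add_distrib, ← Finset.sum_add_distrib]
    refine Finset.sum_congr rfl fun c _ ↦ ?_
    simp only [Finset.sum_filter]
    rw [← Finset.sum_add_distrib, ← Finset.sum_add_distrib]
    refine Finset.sum_congr rfl fun y _ ↦ ?_
    rw [if_pos trivial]
    refine three_cases _ _ _ ?_ ?_ _
    · intro h hL
      have h0 : Da S b q P₁ y = ∅ := by
        unfold Da
        rw [filter_eq_empty_iff]
        intro q' hq' h2
        exact h2 (h.2 q' hq')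
      unfold HL at hL
      rw [h0, log_empty] at hL
      omega
    · unfold HA FM HL
      constructor
      · rintro ⟨h1, h2⟩
        refine ⟨?_, by omega⟩
        rintro ⟨h4, h5⟩
        rcases h1 with h1 | ⟨q', hq', h1⟩
        · exact h1 h4
        · exact h1 (h5 q' hq')
      · rintro ⟨h1, h2⟩
        refine ⟨?_, by omega⟩
        by_contra h4
        push Not at h4
        exact h1 h4
  · intro V u₀ z
    unfold ful₄
    rw [← Finset.mul_sum, ← Finset.mul_sum, ← mul_add]
    congr 1
    rw [Finset.sum_comm (s := Ico I J), Finset.sum_comm (s := Ico I J), ← Finset.sum_add_distrib]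
    refine Finset.sum_congr rfl fun x _ ↦ ?_
    rw [Finset.sum_comm (s := Ico I J), Finset.sum_comm (s := Ico I J), ← Finset.sum_add_distrib]
    refine Finset.sum_congr rfl fun χ _ ↦ ?_
    rw [Finset.sum_comm (s := Ico I J), Finset.sum_comm (s := Ico I J), ← Finset.sum_add_distrib]
    refine Finset.sum_congr rfl fun c _ ↦ ?_
    simp only [Finset.sum_filter]
    rw [Finset.sum_comm (s := Ico I J), Finset.sum_comm (s := Ico I J), ← Finset.sum_add_distrib]
    refine Finset.sum_congr rfl fun y _ ↦ ?_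
    have hD₁ : D₁z S V u₀ z e b q P₁ t c y ⊆ b :=
      (filter_subset _ _).trans (sp_subset S b q P₁)
    have hD₂ : D₂z S V u₀ z e b q P₁ t c y ⊆ b :=
      (filter_subset _ _).trans (sp_subset S b q P₁)
    refine second_cases I J (Nat.log 2 (S.nm (D₁z S V u₀ z e b q P₁ t c y)))
      (Nat.log 2 (S.nm (D₂z S V u₀ z e b q P₁ t c y))) (HL S I b q P₁ χ c y)
      (log_lt S hD₁ hb) (log_lt S hD₂ hb) ?_ (fun i => HB S V u₀ z e I i b q P₁ t χ c y)
      (fun i => HC S V u₀ z e I i b q P₁ t χ c y) (fun i => Iff.rfl) (fun i => Iff.rfl) _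
    intro hL
    unfold HL at hL
    have hprod : S.nm (Da S b q P₁ y) = S.nm (D₁z S V u₀ z e b q P₁ t c y) *
        S.nm (D₂z S V u₀ z e b q P₁ t c y) := by
      unfold Sys.nm
      rw [← Finset.prod_union]
      · refine Finset.prod_congr ?_ fun _ _ => rfl
        ext q'
        simp only [Da, D₁z, D₂z, mem_filter, mem_union]
        tauto
      · rw [Finset.disjoint_left]
        intro q' h1 h2
        simp only [D₁z, D₂z, mem_filter] at h1 h2
        exact h1.2.2 h2.2.2
    by_contra hcon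
    push Not at hcon
    obtain ⟨c1, c2⟩ := hcon
    have p1 : S.nm (D₁z S V u₀ z e b q P₁ t c y) < 2 ^ I :=
      Nat.lt_pow_of_log_lt (by norm_num) c1
    have p2 : S.nm (D₂z S V u₀ z e b q P₁ t c y) < 2 ^ I :=
      Nat.lt_pow_of_log_lt (by norm_num) c2
    have p3 : 2 ^ (2 * I) ≤ S.nm (Da S b q P₁ y) :=
      Nat.pow_le_of_le_log (S.nm_pos _).ne' hL
    have p4 : S.nm (Da S b q P₁ y) < 2 ^ I * 2 ^ I := by
      rw [hprod]
      exact Nat.mul_lt_mul'' p1 p2
    rw [two_mul, pow_add] at p3
    omega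

end Pool.Agent.Helper6.TH
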